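import Pool.Agent.Helper53.PF.St

/-!
# Project PF (MP_ad0dc2_nt), module CMP: comparison of coefficients
-/

set_option autoImplicit false

namespace PF.Helper11

open Polynomial

theorem holds_CMP : PF.StCMP := by
  intro hind n σ P R₀ g s z w A B C' W₀ hcrv hσ hs hz hw
  have hR : C (1 / σ) * s = X ^ 3 - C P * X - C R₀ := by
    rw [hs, ← mul_assoc, ← C_mul, one_div, inv_mul_cancel₀ hσ, C_1, one_mul]
  have heq := hcrv.eq
  obtain ⟨R, hRd⟩ : ∃ R : ℚ[X], R = C R₀ + C (1 / σ) * X := ⟨_, rfl⟩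
  obtain ⟨H2, h2⟩ : ∃ H : ℚ[X], H = 12 * A + 3 * X * C (g ^ 2) + 8 * C P * C' := ⟨_, rfl⟩
  obtain ⟨H1, h1⟩ : ∃ H : ℚ[X], H = 12 * A ^ 2 + 6 * X * C g * (W₀ + C g * A)
    - 4 * (C (P ^ 2) * C' ^ 2 - C P * B ^ 2 - 3 * R * B * C') := ⟨_, rfl⟩
  obtain ⟨H0, h0⟩ : ∃ H : ℚ[X], H = 4 * A ^ 3 + 3 * X * (W₀ + C g * A) ^ 2 + X ^ 3 - C (4 * n)
    + 4 * R * (B ^ 3 - C P * B * C' ^ 2 + R * C' ^ 3) := ⟨_, rfl⟩
  have hφX : (compRingHom s) X = s := X_comp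
  have hφC : ∀ r : ℚ, (compRingHom s) (C r) = C r := fun r => C_comp
  have hφ : ∀ f : ℚ[X], f.comp s = compRingHom s f := fun f => rfl
  have hRs : compRingHom s R = X ^ 3 - C P * X := by
    rw [hRd, map_add, map_mul, hφC, hφC, hφX, hR]
    ring
  have key : (H0 - A * H1 + A ^ 2 * H2).comp s + (H1 - 2 * A * H2).comp s * z
      + H2.comp s * z ^ 2 = 0 := by
    rw [hφ A, hφ B, hφ C'] at hz
    rw [hφ W₀] at hw
    rw [hφ, hφ, hφ, h0, h1, h2]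
    simp only [map_add, map_sub, map_mul, map_pow, map_ofNat, hφX, hφC, hRs]
    have e1 : C (4 * n) = 4 * (C n : ℚ[X]) := by
      rw [C_mul]
      rfl
    simp only [map_mul, map_ofNat] at heq
    obtain ⟨a1, ha1⟩ : ∃ a, a = compRingHom s A := ⟨_, rfl⟩
    obtain ⟨b1, hb1⟩ : ∃ a, a = compRingHom s B := ⟨_, rfl⟩
    obtain ⟨c1, hc1⟩ : ∃ a, a = compRingHom s C' := ⟨_, rfl⟩
    obtain ⟨w1, hw1⟩ : ∃ a, a = compRingHom s W₀ := ⟨_, rfl⟩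
    rw [← ha1, ← hb1, ← hc1] at hz
    rw [← hw1] at hw
    rw [← ha1, ← hb1, ← hc1, ← hw1]
    subst hw
    subst hz
    linear_combination heq
  obtain ⟨k0, k1, k2⟩ := hind ℚ s z _ _ _ hcrv.ds (by rw [hcrv.dz]; norm_num) key
  rw [k2, mul_zero, sub_zero] at k1
  rw [k2, k1, mul_zero, mul_zero, sub_zero, add_zero] at k0
  rw [← hRd]
  refine ⟨by rw [← h2, k2], by rw [← h1, k1], ?_⟩
  rw [h0] at k0
  exact k0

end PF.Helper11
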